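import Pool.Agent.helper71.EP.SpecE
import Pool.Agent.helper61.TG.WT6

/-!
# ep:EQG (Gauss sum)
-/

set_option autoImplicit false

open Finset
open scoped Real
open Pool.Agent.helper74.TG

noncomputable section

namespace Pool.Agent.EP

theorem EQG_geom (q b : ℕ) (hq : 0 < q) :
    ∑ k ∈ range q, ee ((k : ℝ) * ((b : ℝ) / q)) = if q ∣ b then (q : ℂ) else 0 := by
  have hqr : (q : ℝ) ≠ 0 := by positivity
  split_ifs with h
  · obtain ⟨c, rfl⟩ := h
    have h1 : ∀ k ∈ range q, ee ((k : ℝ) * (((q * c : ℕ) : ℝ) / q)) = 1 := by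
      intro k _
      have h2 : (k : ℝ) * (((q * c : ℕ) : ℝ) / q) = ((k * c : ℕ) : ℝ) := by
        push_cast
        field_simp
      rw [h2]
      exact h61.ee_nat _
    rw [Finset.sum_congr rfl h1]
    simp
  · simp only [h61.ee_nat_mul]
    have h1 : ee ((b : ℝ) / q) ≠ 1 := by
      intro h1
      obtain ⟨j, hj⟩ := h61.ee_eq_one h1
      rw [div_eq_iff hqr] at hj
      have hj' : (b : ℤ) = j * q := by exact_mod_cast hj
      exact h (Int.natCast_dvd_natCast.1 ⟨j, by rw [hj', mul_comm]⟩)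
    rw [geom_sum_eq h1 q]
    have h3 : ee ((b : ℝ) / q) ^ q = 1 := by
      rw [← h61.ee_nat_mul, mul_div_cancel₀ _ hqr]
      exact h61.ee_nat _
    rw [h3, sub_self, zero_div]

theorem EQG_shift (f : ℕ → ℂ) (q : ℕ) (hf : ∀ t, f (t + q) = f t) (t : ℕ) :
    ∑ d ∈ range q, f (t + d) = ∑ d ∈ range q, f d := by
  induction t with
  | zero => simp
  | succ t ih =>
    rw [← ih]
    have h1 := Finset.sum_range_succ (fun d => f (t + d)) q
    have h2 := Finset.sum_range_succ' (fun d => f (t + d)) q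
    simp only [add_zero, hf] at h1 h2
    have h3 : ∑ d ∈ range q, f (t + 1 + d) = ∑ d ∈ range q, f (t + (d + 1)) :=
      Finset.sum_congr rfl fun d _ => by congr 1; ring
    rw [h3]
    have h4 := h1.symm.trans h2
    exact (add_right_cancel h4).symm

theorem EQG : EQG_stmt := by
  intro m a q hq0 hqm haq
  have hqr : (q : ℝ) ≠ 0 := by positivity
  set f : ℕ → ℂ := fun t => ee ((a : ℝ) * (hq m t : ℝ) / q) with hf
  have hper : ∀ t, f (t + q) = f t := by
    intro t
    simp only [hf]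
    have h1 : (a : ℝ) * (hq m (t + q) : ℝ) / q =
        (a : ℝ) * (hq m t : ℝ) / q + ((a * (6 * m * t + 3 * m * q + 6) : ℕ) : ℝ) := by
      simp only [hq]
      push_cast
      field_simp
      ring
    rw [h1, h61.ee_add, h61.ee_nat, mul_one]
  have hmul : ∀ t d : ℕ, f (t + d) * (starRingEnd ℂ) (f t) =
      ee ((a : ℝ) * (hq m d : ℝ) / q) * ee ((t : ℝ) * (((6 * m * a * d : ℕ) : ℝ) / q)) := by
    intro t d
    simp only [hf]
    rw [← h61.ee_neg, ← h61.ee_add, ← h61.ee_add]
    congr 1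
    simp only [hq]
    push_cast
    field_simp
    ring
  have key : ((‖∑ t ∈ range q, f t‖ ^ 2 : ℝ) : ℂ) = (q : ℂ) := by
    have h0 : ((‖∑ t ∈ range q, f t‖ ^ 2 : ℝ) : ℂ) =
        (∑ t ∈ range q, f t) * (starRingEnd ℂ) (∑ t ∈ range q, f t) := by
      rw [Complex.mul_conj']
      push_cast
      rfl
    rw [h0, map_sum, Finset.mul_sum]
    have h1 : ∀ t ∈ range q, (∑ s ∈ range q, f s) * (starRingEnd ℂ) (f t) =
        ∑ d ∈ range q, ee ((a : ℝ) * (hq m d : ℝ) / q) *
          ee ((t : ℝ) * (((6 * m * a * d : ℕ) : ℝ) / q)) := by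
      intro t _
      rw [← EQG_shift f q hper t, Finset.sum_mul]
      exact Finset.sum_congr rfl fun d _ => hmul t d
    rw [Finset.sum_congr rfl h1, Finset.sum_comm]
    have h2 : ∀ d ∈ range q, ∑ t ∈ range q, ee ((a : ℝ) * (hq m d : ℝ) / q) *
        ee ((t : ℝ) * (((6 * m * a * d : ℕ) : ℝ) / q)) = if d = 0 then (q : ℂ) else 0 := by
      intro d hd
      rw [← Finset.mul_sum, EQG_geom q _ hq0]
      by_cases h : d = 0
      · subst h
        simp [hq, h61.ee_zero]
      · have h3 : ¬ q ∣ 6 * m * a * d := by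
          intro h4
          have h5 : Nat.Coprime q (6 * m * a) := Nat.Coprime.mul_right hqm haq.symm
          have h6 : q ∣ d := h5.dvd_of_dvd_mul_left h4
          exact absurd (Nat.le_of_dvd (Nat.pos_of_ne_zero h) h6) (not_le.2 (Finset.mem_range.1 hd))
        rw [if_neg h3, if_neg h, mul_zero]
    rw [Finset.sum_congr rfl h2, Finset.sum_ite_eq' (range q) 0]
    rw [if_pos (Finset.mem_range.2 hq0)]
  exact_mod_cast key

end Pool.Agent.EP
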